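import Mathlib
import Pool.Agent.Q183.DF.Log

/-!
MP_64ff02_ag, Q1: holomorphic maps from the punctured disc and entire curves whose homogeneous
coordinates satisfy linear difference equations.
-/

set_option autoImplicit false

namespace Pool.Agent.Results.MP_64ff02_ag.DifferenceEquationsGGL

open MvPolynomial Metric Set Filter Topology FF
open Pool.Agent.W602.GT Pool.Agent.TH143 Pool.Agent.TH143.GT Pool.Agent.W603.BP
  Pool.Agent.W603.BPR Pool.Agent.W603.GR Pool.Agent.W603.PV
open Pool.Agent.Q183.DF (DiffEq SlimR FinOrd DiffHyp DiffPunct DiffEntire)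

/-- Let `X` be the quasi-projective variety with the homogeneous ideal `p` and the boundary `Q = 0`.
Consider the holomorphic maps to `X` from the punctured disc (with `z = 1 / w`), or from the complex
plane, each of whose homogeneous coordinates `h (z)` satisfies a linear difference equation
`∑ a_k (z) h (z + k) = 0` with coefficients meromorphic at infinity, not all of them zero, and is of
growth `O (exp (A |Re z| + ε |Im z|))` in a right half plane, for some `A` and all `ε > 0`. In the
case of the punctured disc suppose in addition that the coordinates are of finite order or that `Q`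
along the map satisfies a difference equation of order one (this is the case if `X` is projective).

(1) If the subvarieties of positive dimension of `X` which are not contained in `G = 0` are of log
general type, then such maps from the punctured disc extend unless the image is contained in
`G = 0`, and such entire curves are contained in `G = 0`.

(2) If `X` is of log general type, then such maps from the punctured disc extend if they are
Zariski-dense, and such entire curves are not Zariski-dense. -/
theorem result {n : ℕ} (p : Ideal (MvPolynomial (Fin (n + 1)) ℂ)) (hp : IsHomog p)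
    (Q : MvPolynomial (Fin (n + 1)) ℂ) (q : ℕ) (hQ : Q.IsHomogeneous q) :
    (∀ G : MvPolynomial (Fin (n + 1)) ℂ, IsForm G → SubLogGT p Q q G →
      (∀ f, PCurve p Q f → DiffPunct Q f → (∃ z ∈ ball (0 : ℂ) 1 \ {0}, eval (f z) G ≠ 0) →
        Extends f) ∧
      ∀ f, EntireCurve p Q f → DiffEntire f → ∀ z, eval (f z) G = 0) ∧
    (∀ (K : Type) [Field K] [Algebra ℂ K] (w : ℕ) (y : Fin (n + 1) → K), FunField p Q K w y →
      LogGeneralType ℂ K w (OffQ Q q y) →
      (∀ f, PCurve p Q f → DiffPunct Q f → ZDense p f (ball 0 1 \ {0}) → Extends f) ∧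
      ∀ f, EntireCurve p Q f → DiffEntire f → ¬ ZDense p f univ) := by
  have hset : ∀ z : ℂ, z ∈ ball (0 : ℂ) 1 \ {0} ↔ z ∈ PB 1 := fun z => mem_disc
  refine ⟨fun G hG h => ⟨fun f hf hl hfG => Pool.Agent.Q183.DF.strong_picard_d hp hQ hG h hf hl hfG,
    fun f hf hl z => Pool.Agent.Q183.DF.strong_brody_d hp hQ hG h hf hl z⟩, ?_⟩
  intro K _ _ w y hy h
  refine ⟨fun f hf hl hd => ?_, fun f hf hl hd => ?_⟩
  · have hd' : ZDense p f (PB 1) := fun H hH h => hd H hH fun z hz => h z ((hset z).1 hz)
    have hgp : GenPt f (PB 1) K w y := hy.genPt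
      (fun z hz => (hf.2 z ((hset z).2 hz)).2.1) hd'
    by_contra hext
    obtain ⟨r, hr⟩ := Pool.Agent.Q183.DF.fam_p hl hgp hf.an hQ
      (fun w hw => (hf.2 w ((hset w).2 hw)).1) (fun z hz => (hf.2 z ((hset z).2 hz)).2.2) hext
    exact hr (allFlat_gt hgp hQ h r)
  · obtain ⟨hdf, hne, hfQ, hnc⟩ := ent_data hf
    have hgp : GenPt f univ K w y := hy.genPt (fun z _ => (hf.2.1 z).2.1) hd
    obtain ⟨r, hr⟩ := Pool.Agent.Q183.DF.fam_e hl hgp hdf hQ hne hfQ hnc
    exact hr (allFlat_gt (hgp.inv hdf) hQ h r)

end Pool.Agent.Results.MP_64ff02_ag.DifferenceEquationsGGL
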