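import Mathlib
import Pool.Agent.Q33.SP.Ggl

/-!
MP_64ff02_ag: the four properties and the logarithmic Iitaka fibration for curves whose homogeneous
coordinates are sums of `r` powers.
-/

set_option autoImplicit false

namespace Pool.Agent.Results.MP_64ff02_ag.IitakaPowerSums

open MvPolynomial Filter Topology FF Pool.Agent.W602.GT Pool.Agent.TH143.GT Pool.Agent.Q33.SP
open Pool.Agent.W603.GR (OffQ SubLogGT)
open Pool.Agent.W603.PV (IsHomog)

/-- Let `X` be the quasi-projective variety `F = 0`, `Q ≠ 0` given by forms of degree at most `D`,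
let `r ≥ 1`, and let `M ≥ (number of monomials of degree D in r variables) ^ 2`. Consider the
holomorphic maps from the punctured disc to `X` with an essential singularity at the origin, and the
nonconstant entire curves in `X`, which are sums of `r` terms given by `M`-th powers.

(1) The former are contained in the closed subset `G = 0` if and only if the latter are.

(2) If the subvarieties of positive dimension of `X` which are not contained in `G = 0` are of log
general type, then all these maps are contained in `G = 0`.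

(3) If `X` is irreducible and `s_1, …, s_k` are rational functions which are algebraic over the
field generated by the ratios of logarithmic tensors of the same type, then outside of one proper
closed subset, which does not depend on `M`, the functions `s_i ∘ f` extend to meromorphic functions
at the origin for the maps `f` from the punctured disc, and the functions `s_i ∘ f` are constant for
the entire curves `f`.

(4) If moreover `X` is of log general type, then all rational functions are of this kind, and all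
these maps are contained in one proper closed subset which does not depend on `M`. -/
theorem result {n r D q : ℕ} {ι : Type} (F : ι → MvPolynomial (Fin (n + 1)) ℂ)
    (hF : ∀ i, ∃ d, d ≤ D ∧ (F i).IsHomogeneous d) (Q : MvPolynomial (Fin (n + 1)) ℂ)
    (hQ : Q.IsHomogeneous q) (hq : q ≤ D) (hr : 1 ≤ r) :
    (∀ M, ((r + D - 1).choose D) ^ 2 ≤ M → ∀ G : MvPolynomial (Fin (n + 1)) ℂ,
      (∀ f, PunctSp r M F Q f → ∀ w : ℂ, w ≠ 0 → ‖w‖ < 1 → eval (f w) G = 0) ↔
        ∀ f, EntSp r M F Q f → ∀ z, eval (f z) G = 0) ∧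
    (∀ p : Ideal (MvPolynomial (Fin (n + 1)) ℂ), IsHomog p →
      (∀ H ∈ p, ∀ x, OnX F Q x → eval x H = 0) →
      ∀ G : MvPolynomial (Fin (n + 1)) ℂ, IsForm G → SubLogGT p Q q G →
      ∀ M, ((r + D - 1).choose D) ^ 2 ≤ M →
        (∀ f, PunctSp r M F Q f → ∀ w : ℂ, w ≠ 0 → ‖w‖ < 1 → eval (f w) G = 0) ∧
        ∀ f, EntSp r M F Q f → ∀ z, eval (f z) G = 0) ∧
    ∀ (p : Ideal (MvPolynomial (Fin (n + 1)) ℂ)) [p.IsPrime],
      (∀ H, H ∈ p ↔ ∀ x, OnX F Q x → eval x H = 0) →
      ∀ (K : Type) [Field K] [Algebra ℂ K] (w : ℕ) (y : Fin (n + 1) → K), FunField p Q K w y →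
        (∀ (k : ℕ) (s : Fin k → K), (∀ i, OverCore w (OffQ Q q y) (s i)) →
          ∃ G : MvPolynomial (Fin (n + 1)) ℂ, IsForm G ∧ G ∉ p ∧
            ∀ M, ((r + D - 1).choose D) ^ 2 ≤ M →
              (∀ f, PunctSp r M F Q f → (∃ w : ℂ, w ≠ 0 ∧ ‖w‖ < 1 ∧ eval (f w) G ≠ 0) →
                ∀ i, MeroOn y (s i) f) ∧
              (∀ f, EntSp r M F Q f → (∃ z : ℂ, eval (f z) G ≠ 0) →
                ∀ i, ConstOn y (s i) f)) ∧
        (LogGeneralType ℂ K w (OffQ Q q y) → (∀ s : K, OverCore w (OffQ Q q y) s) ∧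
          ∃ G : MvPolynomial (Fin (n + 1)) ℂ, IsForm G ∧ G ∉ p ∧
            ∀ M, ((r + D - 1).choose D) ^ 2 ≤ M →
              (∀ f, PunctSp r M F Q f → ∀ w : ℂ, w ≠ 0 → ‖w‖ < 1 → eval (f w) G = 0) ∧
              ∀ f, EntSp r M F Q f → ∀ z, eval (f z) G = 0) := by
  have hM0 : ∀ M, ((r + D - 1).choose D) ^ 2 ≤ M → 0 < M := fun M hM =>
    lt_of_lt_of_le (pow_pos (Nat.choose_pos (by omega)) 2) hM
  refine ⟨fun M hM G => (tfae F hF Q hQ hq hM (hM0 M hM) G).out 0 1, ?_, ?_⟩
  · intro p hp hcut G hG hsub M hM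
    have h1 : ∀ (e : Fin r → ℕ) P, IsSp F Q e P → aeval P G = 0 := fun e P hP =>
      sub_gt_no_sp hQ hp hcut hG hsub hP
    exact ⟨((tfae F hF Q hQ hq hM (hM0 M hM) G).out 3 0).1 h1,
      ((tfae F hF Q hQ hq hM (hM0 M hM) G).out 3 1).1 h1⟩
  · intro p _ hp K _ _ w y hy
    refine ⟨fun k s hs => ?_, fun hlog => ⟨fun s => core_of_gt hy.sub.dim hlog s, ?_⟩⟩
    · exact core_main hr F hF Q hQ hq (fun H hH => (hp H).1 hH) hy
        (fun i => flatFn_of_core hQ hy (hs i))
    · obtain ⟨G, h1, h2, h3⟩ := excep_gt (r := r) (D := D) hQ (fun H hH => (hp H).1 hH) hy hlog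
      refine ⟨G, h1, h2, fun M hM => ?_⟩
      exact ⟨((tfae F hF Q hQ hq hM (hM0 M hM) G).out 4 0).1 h3,
        ((tfae F hF Q hQ hq hM (hM0 M hM) G).out 4 1).1 h3⟩

end Pool.Agent.Results.MP_64ff02_ag.IitakaPowerSums
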