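import Pool.Agent.Q161.PD.Disc

/-!
# Truncated second main theorem and big Picard theorem for varieties of log general type

MP_64ff02_ag, Q1. `X` is any quasi-projective variety of log general type: the complement of the
hypersurface `Q = 0` in the closed variety `Y` in `P^n` with the ideal `p`. `F 0, …, F k` are any
forms of the same degree `e > 0` which do not vanish on `Y` and have no common zero on `Y`, and such
that the boundary `Q = 0` of `X` is contained in the set `D = {F 0 * ... * F k = 0}`.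
-/

set_option autoImplicit false

namespace Pool.Agent.Results.MP_64ff02_ag.TruncatedBigPicard

open MvPolynomial Metric Set Filter Topology FF MeasureTheory
open Pool.Agent.W602.GT Pool.Agent.TH143 Pool.Agent.TH143.GT Pool.Agent.W603.BP
  Pool.Agent.W603.BPR Pool.Agent.W603.GR Pool.Agent.W603.PV

/-- The characteristic function of a holomorphic map from the punctured disc: the mean of `log ‖f‖`
on the circle of radius `1 / r`, minus the mean on the circle of radius `1 / 2`. -/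
noncomputable def discChar {n : ℕ} (f : ℂ → Fin (n + 1) → ℂ) (r : ℝ) : ℝ :=
  Real.circleAverage (fun w => Real.log ‖f w‖) 0 r⁻¹ -
    Real.circleAverage (fun w => Real.log ‖f w‖) 0 2⁻¹

/-- The truncated counting function of a holomorphic map from the punctured disc: the points `w`
with `1 / r ≤ |w| < 1 / 2` that are mapped to one of the `F i = 0`, each counted once, with the
weight `log (r |w|)`. -/
noncomputable def discCount {n k : ℕ} (F : Fin (k + 1) → MvPolynomial (Fin (n + 1)) ℂ)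
    (f : ℂ → Fin (n + 1) → ℂ) (r : ℝ) : ℝ :=
  ∑ᶠ (w : ℂ) (_ : w ∈ {w : ℂ | r⁻¹ ≤ ‖w‖ ∧ ‖w‖ < 2⁻¹ ∧ ∃ i, eval (f w) (F i) = 0}),
    Real.log (r * ‖w‖)

/-- The characteristic function of an entire curve: the mean of `log ‖f‖` on the circle of radius
`r`, minus `log ‖f 0‖`. -/
noncomputable def entChar {n : ℕ} (f : ℂ → Fin (n + 1) → ℂ) (r : ℝ) : ℝ :=
  Real.circleAverage (fun z => Real.log ‖f z‖) 0 r - Real.log ‖f 0‖

/-- The contribution of the point `z` to the counting function: `log (r / |z|)` if `|z| ≤ r`, and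
`log r` if `z = 0`. -/
noncomputable def weight (r : ℝ) (z : ℂ) : ℝ :=
  if z = 0 then Real.log r else if ‖z‖ ≤ r then Real.log (r / ‖z‖) else 0

/-- The truncated counting function of an entire curve: the points that are mapped to one of the
`F i = 0`, each counted once. -/
noncomputable def entCount {n k : ℕ} (F : Fin (k + 1) → MvPolynomial (Fin (n + 1)) ℂ)
    (f : ℂ → Fin (n + 1) → ℂ) (r : ℝ) : ℝ :=
  ∑ᶠ (z : ℂ) (_ : z ∈ {z | ∃ i, eval (f z) (F i) = 0}), weight r z

theorem discChar_eq {n : ℕ} (f : ℂ → Fin (n + 1) → ℂ) (r : ℝ) :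
    discChar f r = Pool.Agent.Q161.PD.CharE (fun z => f z⁻¹) r := by
  unfold discChar Pool.Agent.Q161.PD.CharE Pool.Agent.Q72.TR.Tm
  rw [← Pool.Agent.Q161.PD.circleAverage_inv, ← Pool.Agent.Q161.PD.circleAverage_inv]

theorem discCount_eq {n k : ℕ} (F : Fin (k + 1) → MvPolynomial (Fin (n + 1)) ℂ)
    (f : ℂ → Fin (n + 1) → ℂ) {r : ℝ} (hr : 0 < r) :
    discCount F f r = Pool.Agent.Q161.PD.CountE F (fun z => f z⁻¹) r := by
  unfold discCount Pool.Agent.Q161.PD.CountE
  refine finsum_mem_eq_of_bijOn (fun w => w⁻¹) ⟨?_, inv_injective.injOn, ?_⟩ ?_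
  · rintro w ⟨h1, h2, i, h3⟩
    have hw : 0 < ‖w‖ := lt_of_lt_of_le (inv_pos.2 hr) h1
    refine ⟨?_, ?_, i, ?_⟩
    · rw [norm_inv, lt_inv_comm₀ (by norm_num) hw]
      exact h2
    · rw [norm_inv, inv_le_comm₀ hw hr]
      exact h1
    · simp only [inv_inv]
      exact h3
  · rintro z ⟨h1, h2, i, h3⟩
    have hz : 0 < ‖z‖ := by linarith
    refine ⟨z⁻¹, ⟨?_, ?_, i, h3⟩, inv_inv z⟩
    · rw [norm_inv]
      exact inv_anti₀ hz h2
    · rw [norm_inv]
      exact inv_strictAnti₀ (by norm_num) h1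
  · rintro w -
    rw [norm_inv, div_inv_eq_mul]

/-- Let `X = Y - {Q = 0}` be of log general type, with the function field `K` and the generic point
`y`. There are a proper closed subset `G = 0` of `Y` and numbers `ε > 0` and `m` such that:

(1) Let `f` be a holomorphic map from the punctured disc to `Y` (for instance to `X`) whose image is
not contained in `G = 0` and which does not extend to a holomorphic map from the disc to projective
space. Then the characteristic `T(r)` of `f` grows faster than every multiple of `log r`;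
`ε T(r) ≤ N(r)` for all `r > 2` outside of a set of finite measure, where `N` counts the points that
`f` maps to `D`, each point once; and `f` meets one of the `F i = 0` at some point with a
multiplicity smaller than `m`.

(2) Every nonconstant entire curve `f` in `Y` which is not contained in `G = 0` satisfies
`ε T(r) ≤ N(r)` for all `r > 0` outside of a set of finite measure, and it meets one of the `F i = 0`
at some point with a multiplicity smaller than `m`. -/
theorem result {n k d : ℕ} (p : Ideal (MvPolynomial (Fin (n + 1)) ℂ)) (hp : IsHomog p)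
    (Q : MvPolynomial (Fin (n + 1)) ℂ) (q : ℕ) (hQ : Q.IsHomogeneous q)
    (K : Type) [Field K] [Algebra ℂ K] (y : Fin (n + 1) → K) (hy : FunField p Q K d y)
    (hgt : LogGeneralType ℂ K d (OffQ Q q y))
    (F : Fin (k + 1) → MvPolynomial (Fin (n + 1)) ℂ) (e : ℕ) (he : 0 < e)
    (hF : ∀ i, (F i).IsHomogeneous e) (hFp : ∀ i, F i ∉ p)
    (hcz : ∀ x : Fin (n + 1) → ℂ, x ≠ 0 → (∀ H ∈ p, eval x H = 0) → ∃ i, eval x (F i) ≠ 0)
    (hbd : ∀ x : Fin (n + 1) → ℂ, (∀ H ∈ p, eval x H = 0) → eval x Q = 0 →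
      ∃ i, eval x (F i) = 0) :
    ∃ (G : MvPolynomial (Fin (n + 1)) ℂ) (ε : ℝ) (m : ℕ), IsForm G ∧ G ∉ p ∧ 0 < ε ∧
      (∀ f, PCurve p 1 f → (∃ w ∈ ball (0 : ℂ) 1 \ {0}, eval (f w) G ≠ 0) → ¬ Extends f →
        (∀ C : ℝ, ∀ᶠ r in atTop, C * Real.log r ≤ discChar f r) ∧
        (∃ S : Set ℝ, volume S < ⊤ ∧ ∀ r, 2 < r → r ∉ S → ε * discChar f r ≤ discCount F f r) ∧
        ∃ i, ∃ w ∈ ball (0 : ℂ) 1 \ {0}, eval (f w) (F i) = 0 ∧
          analyticOrderAt (fun w => eval (f w) (F i)) w < m) ∧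
      ∀ f, EntireCurve p 1 f → (∃ z, eval (f z) G ≠ 0) →
        (∃ S : Set ℝ, volume S < ⊤ ∧ ∀ r, 0 < r → r ∉ S → ε * entChar f r ≤ entCount F f r) ∧
        ∃ i z, eval (f z) (F i) = 0 ∧ analyticOrderAt (fun z => eval (f z) (F i)) z < m := by
  have hFy : ∀ i, aeval y (F i) ≠ 0 := fun i h => hFp i (hy.mem _ ⟨e, hF i⟩ h)
  have hcz' : ∀ x ∈ Pool.Agent.Q72.NW.Cone y, x ≠ 0 → ∃ i, eval x (F i) ≠ 0 := fun x hx hx0 =>
    hcz x hx0 (Pool.Agent.Q161.PD.of_cone hp hy hx)
  have hbd' : ∀ P, OffQ Q q y P → ∃ i, P.ord (aeval y (F i)) ≠ P.ord (aeval y (F 0)) := fun P hP =>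
    Pool.Agent.Q161.PD.offQ_ord hy.sub.ne F hF hFy hcz' hQ hy.sub.off
      (fun x hx hxQ => hbd x (Pool.Agent.Q161.PD.of_cone hp hy hx) hxQ) P hP
  have hgen : IntermediateField.adjoin ℂ {g : K | ∃ i j, y j ≠ 0 ∧ g = y i / y j} = ⊤ := hy.sub.gen
  obtain ⟨B1, E1, ε1, m1, hB1, hB1y, hε1, h1⟩ := Pool.Agent.Q161.PD.pd_main K y hgen F e he hF hFy
    hcz' (OffQ Q q y) hbd' hgt
  obtain ⟨B2, E2, ε2, m2, hB2, hB2y, hε2, h2⟩ := Pool.Agent.Q72.NW.gen_main K y hgen F e he hF hFy
    hcz' (OffQ Q q y) hbd' hgt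
  refine ⟨B1 * B2, min ε1 ε2, max m1 m2, ⟨E1 + E2, hB1.mul hB2⟩, fun h => ?_, lt_min hε1 hε2,
    fun f hf hfG hext => ?_, fun f hf hfG => ?_⟩
  · have h3 : aeval y (B1 * B2) = 0 := hy.sub.mem _ h
    rw [map_mul] at h3
    exact mul_ne_zero hB1y hB2y h3
  · have hset : ∀ z : ℂ, z ∈ ball (0 : ℂ) 1 \ {0} ↔ z ∈ PB 1 := fun z => mem_disc
    obtain ⟨htr, ⟨S, hS, hSr⟩, i, z, hz, hz0, hzo⟩ := h1 f (fun j => hf.an j)
      (fun w hw => (hf.2 w ((hset w).2 hw)).1)
      (fun w hw => Pool.Agent.Q161.PD.cone_of hy (hf.2 w ((hset w).2 hw)).2.1) (by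
        obtain ⟨w, hw, hwG⟩ := hfG
        rw [map_mul] at hwG
        exact ⟨w, (hset w).1 hw, left_ne_zero_of_mul hwG⟩) hext
    have hT : ∀ C : ℝ, ∀ᶠ r in atTop, C * Real.log r ≤ discChar f r := by
      intro C
      obtain ⟨R0, hR0⟩ := htr (C + 1)
      filter_upwards [eventually_ge_atTop R0,
        Real.tendsto_log_atTop.eventually_ge_atTop |Pool.Agent.Q72.TR.Tm (fun z => f z⁻¹) 2|] with
        r h3 h4
      rw [discChar_eq]
      have h5 := hR0 r h3
      have h6 := le_abs_self (Pool.Agent.Q72.TR.Tm (fun z => f z⁻¹) 2)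
      show _ ≤ Pool.Agent.Q72.TR.Tm (fun z => f z⁻¹) r - Pool.Agent.Q72.TR.Tm (fun z => f z⁻¹) 2
      linarith
    refine ⟨hT, ?_, i, z, (hset z).2 hz, hz0, hzo.trans_le (by exact_mod_cast le_max_left m1 m2)⟩
    obtain ⟨R0, hR0⟩ := eventually_atTop.1 (hT 0)
    refine ⟨S ∪ Icc 0 R0, ?_, fun r hr hrS => ?_⟩
    · refine lt_of_le_of_lt (measure_union_le _ _) ?_
      rw [Real.volume_Icc]
      exact ENNReal.add_lt_top.2 ⟨hS, ENNReal.ofReal_lt_top⟩
    · have h3 : R0 ≤ r := by
        by_contra h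
        exact hrS (Or.inr ⟨by linarith, (not_le.1 h).le⟩)
      have h4 := hR0 r h3
      rw [zero_mul] at h4
      have h5 := hSr r hr fun h => hrS (Or.inl h)
      rw [← discChar_eq, ← discCount_eq F f (by linarith)] at h5
      exact (mul_le_mul_of_nonneg_right (min_le_left _ _) h4).trans h5
  · obtain ⟨z1, hz1⟩ := hfG
    rw [map_mul] at hz1
    obtain ⟨⟨S, hS, hSr⟩, i, z, hz0, hzo⟩ := h2 f hf.1 (fun z => (hf.2.1 z).1)
      (fun z => Pool.Agent.Q161.PD.cone_of hy (hf.2.1 z).2.1) hf.2.2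
      ⟨z1, right_ne_zero_of_mul hz1⟩
    refine ⟨?_, i, z, hz0, hzo.trans_le (by exact_mod_cast le_max_right m1 m2)⟩
    obtain ⟨c, hc⟩ := Pool.Agent.Q72.TR.char_log hf.1 (fun z => (hf.2.1 z).1) hf.2.2
    refine ⟨S ∪ Icc 0 (max 1 (Real.exp c)), ?_, fun r hr hrS => ?_⟩
    · refine lt_of_le_of_lt (measure_union_le _ _) ?_
      rw [Real.volume_Icc]
      exact ENNReal.add_lt_top.2 ⟨hS, ENNReal.ofReal_lt_top⟩
    · have h3 : max 1 (Real.exp c) ≤ r := by
        by_contra h
        exact hrS (Or.inr ⟨hr.le, (not_le.1 h).le⟩)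
      have h4 : 1 ≤ r := (le_max_left _ _).trans h3
      have h5 : c ≤ Real.log r := by
        rw [Real.le_log_iff_exp_le hr]
        exact (le_max_right _ _).trans h3
      have h6 := hc r h4
      have h7 : 0 ≤ entChar f r := by
        show 0 ≤ Pool.Agent.Q72.TR.CharT f r
        linarith
      have h8 : ε2 * entChar f r ≤ entCount F f r := hSr r hr fun h => hrS (Or.inl h)
      exact (mul_le_mul_of_nonneg_right (min_le_right _ _) h7).trans h8

end Pool.Agent.Results.MP_64ff02_ag.TruncatedBigPicard
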